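import Mathlib

/-!
# MP_05d054_an : dimensions of unions of cube boundaries with all side lengths

For every size cube packing in `ℝⁿ` (`n ≥ 1`) the union `G` of the boundaries satisfies
`dim_H G + upper box dim G ≥ 2 n - 1`.

Idea: the Lipschitz map `(p, q) ↦ (q₀ - p₀, p', q')` sends pairs of points on opposite faces of the
cube of side `t` onto a product of two `(n-1)`-cubes of side `t` in the slice `{t} × ℝ^(2n-2)`, so the
image of `G × G` has positive outer Lebesgue measure in `ℝ^(2n-1)` (Fubini).  Covering the first factor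
efficiently for Hausdorff measure and the second one by sets of the same diameter gives the claim.
-/

open MeasureTheory Set Filter Topology
open scoped ENNReal NNReal

namespace Pool.Agent.Results.MP_05d054_an.DimensionSum

/-- Euclidean space `ℝⁿ`. -/
abbrev E (n : ℕ) := EuclideanSpace ℝ (Fin n)

/-- The boundary of the unit cube `[0,1]ⁿ`: the union of its `(n-1)`-dimensional faces. -/
def skel (n : ℕ) : Set (E n) := {x | (∀ i, 0 ≤ x i ∧ x i ≤ 1) ∧ ∃ i, x i = 0 ∨ x i = 1}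

/-- `G = ⋃_{t ∈ (0,1)} (t K + f(t))`. -/
def packing (n : ℕ) (f : ℝ → E n) : Set (E n) :=
  ⋃ t ∈ Ioo (0 : ℝ) 1, (fun x => t • x + f t) '' skel n

/-- The least number of sets of diameter at most `δ` needed to cover `G`. -/
noncomputable def covNum {n : ℕ} (G : Set (E n)) (δ : ℝ) : ℕ :=
  sInf {m : ℕ | ∃ U : Fin m → Set (E n), G ⊆ ⋃ i, U i ∧
    ∀ i, ∀ x ∈ U i, ∀ y ∈ U i, dist x y ≤ δ}

/-- Upper box-counting dimension. -/
noncomputable def upperBoxDim {n : ℕ} (G : Set (E n)) : EReal :=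
  limsup (fun δ : ℝ => ((Real.log (covNum G δ) / Real.log (1 / δ) : ℝ) : EReal)) (𝓝[>] 0)

/-- The set of `(t, p', q')` with `t ∈ (0,1)` and `p', q'` in the cube of side `t` at `g t`. -/
def W (m : ℕ) (g : ℝ → Fin m → ℝ) : Set (ℝ × (Fin m → ℝ) × (Fin m → ℝ)) :=
  {w | w.1 ∈ Ioo (0 : ℝ) 1 ∧ (∀ i, g w.1 i ≤ w.2.1 i ∧ w.2.1 i ≤ g w.1 i + w.1) ∧
    (∀ i, g w.1 i ≤ w.2.2 i ∧ w.2.2 i ≤ g w.1 i + w.1)}

lemma slice_pos (m : ℕ) (c : Fin m → ℝ) (t : ℝ) (ht : 0 < t) :
    0 < volume {w : (Fin m → ℝ) × (Fin m → ℝ) |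
      (∀ i, c i ≤ w.1 i ∧ w.1 i ≤ c i + t) ∧ (∀ i, c i ≤ w.2 i ∧ w.2 i ≤ c i + t)} := by
  have hopen : IsOpen ((Set.univ.pi fun i : Fin m => Ioo (c i) (c i + t)) ×ˢ
      (Set.univ.pi fun i : Fin m => Ioo (c i) (c i + t))) :=
    (isOpen_set_pi Set.finite_univ fun i _ => isOpen_Ioo).prod
      (isOpen_set_pi Set.finite_univ fun i _ => isOpen_Ioo)
  have hne : ((Set.univ.pi fun i : Fin m => Ioo (c i) (c i + t)) ×ˢ
      (Set.univ.pi fun i : Fin m => Ioo (c i) (c i + t))).Nonempty := by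
    refine ⟨(fun i => c i + t / 2, fun i => c i + t / 2), ?_, ?_⟩ <;>
    · intro i _
      constructor <;> simp only [] <;> linarith
  refine lt_of_lt_of_le (hopen.measure_pos volume hne) (measure_mono ?_)
  rintro ⟨p, q⟩ ⟨hp, hq⟩
  exact ⟨fun i => ⟨(hp i trivial).1.le, (hp i trivial).2.le⟩,
    fun i => ⟨(hq i trivial).1.le, (hq i trivial).2.le⟩⟩

lemma W_not_null (m : ℕ) (g : ℝ → Fin m → ℝ) : volume (W m g) ≠ 0 := by
  intro h
  have h1 := Measure.measure_ae_null_of_prod_null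
    (μ := (volume : Measure ℝ)) (ν := (volume : Measure ((Fin m → ℝ) × (Fin m → ℝ)))) h
  have h2 : volume (Ioo (0 : ℝ) 1) = 0 := by
    refine measure_mono_null (fun t ht => ?_) (ae_iff.1 h1)
    simp only [Pi.zero_apply, mem_ofPred_eq]
    refine (lt_of_lt_of_le (slice_pos m (g t) t ht.1) (measure_mono ?_)).ne'
    rintro w ⟨hw1, hw2⟩
    exact ⟨ht, hw1, hw2⟩
  rw [Real.volume_Ioo] at h2
  norm_num at h2

/-- Volume of the box containing the image of a product of two sets of diameter at most `δ`. -/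
lemma box_volume (m : ℕ) (c : ℝ) (u v : Fin m → ℝ) (δ : ℝ) (hδ : 0 ≤ δ) :
    volume ((Metric.closedBall c (2 * δ)) ×ˢ ((Metric.closedBall u δ) ×ˢ (Metric.closedBall v δ)))
      = ENNReal.ofReal (4 * 4 ^ m * δ ^ (2 * m + 1)) := by
  rw [Measure.volume_eq_prod, Measure.prod_prod, Measure.volume_eq_prod, Measure.prod_prod,
    Real.volume_closedBall, Real.volume_pi_closedBall _ hδ, Real.volume_pi_closedBall _ hδ,
    Fintype.card_fin, ← ENNReal.ofReal_mul (by positivity), ← ENNReal.ofReal_mul (by positivity)]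
  congr 1
  rw [mul_pow]
  have : (4 : ℝ) ^ m = 2 ^ m * 2 ^ m := by rw [← mul_pow]; norm_num
  rw [this]
  ring

lemma exists_cover {n : ℕ} (G : Set (E n)) (hG : Bornology.IsBounded G) (δ : ℝ) (hδ : 0 < δ) :
    ∃ U : Fin (covNum G δ) → Set (E n), G ⊆ ⋃ i, U i ∧
      ∀ i, ∀ x ∈ U i, ∀ y ∈ U i, dist x y ≤ δ := by
  have hne : {m : ℕ | ∃ U : Fin m → Set (E n), G ⊆ ⋃ i, U i ∧
      ∀ i, ∀ x ∈ U i, ∀ y ∈ U i, dist x y ≤ δ}.Nonempty := by
    have htb : TotallyBounded G := by
      have hc : IsCompact (closure G) := hG.isCompact_closure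
      exact hc.totallyBounded.subset subset_closure
    obtain ⟨t, htf, ht⟩ := Metric.totallyBounded_iff.1 htb (δ / 2) (by linarith)
    obtain ⟨m, ⟨e⟩⟩ : ∃ m, Nonempty (Fin m ≃ t) := by
      have := htf.fintype
      exact ⟨Fintype.card t, ⟨(Fintype.equivFin t).symm⟩⟩
    refine ⟨m, fun i => Metric.ball ((e i : E n)) (δ / 2), ?_, ?_⟩
    · intro x hx
      obtain ⟨y, hy, hxy⟩ := mem_iUnion₂.1 (ht hx)
      refine mem_iUnion.2 ⟨e.symm ⟨y, hy⟩, ?_⟩
      simpa using hxy
    · intro i x hx y hy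
      have h1 := Metric.mem_ball.1 hx
      have h2 := Metric.mem_ball'.1 hy
      linarith [dist_triangle x (e i : E n) y]
  exact Nat.sInf_mem hne

lemma abs_coord_le {n : ℕ} (x y : E n) (i : Fin n) : |x i - y i| ≤ dist x y := by
  have h := PiLp.norm_apply_le (x - y) i
  rw [dist_eq_norm]
  simpa using h

/-- The key covering estimate. -/
lemma W_null_of {m : ℕ} (f : ℝ → E (m + 1)) (a b : ℝ) (ha : 0 < a)
    (hab : a + b = 2 * m + 1)
    (hG : Bornology.IsBounded (packing (m + 1) f))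
    (hH : μH[a] (packing (m + 1) f) = 0) (δ₀ : ℝ) (hδ₀ : 0 < δ₀)
    (hN : ∀ δ, 0 < δ → δ < δ₀ → (covNum (packing (m + 1) f) δ : ℝ) ≤ δ ^ (-b)) :
    volume (W m (fun t i => f t i.succ)) = 0 := by
  set G := packing (m + 1) f with hGdef
  set C : ℝ := 4 * 4 ^ m with hC
  have hCpos : 0 < C := by positivity
  have key : ∀ ε : ℝ, 0 < ε → volume (W m (fun t i => f t i.succ)) ≤
      ENNReal.ofReal C * (ENNReal.ofReal ε + ENNReal.ofReal ε) := by
    intro ε hε
    -- a cover of `G`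
    have hr : (0 : ℝ≥0∞) < ENNReal.ofReal (δ₀ / 2) := ENNReal.ofReal_pos.2 (by linarith)
    rw [Measure.hausdorffMeasure_apply] at hH
    have hH2 := ENNReal.iSup_eq_zero.1 hH (ENNReal.ofReal (δ₀ / 2))
    have hH3 := ENNReal.iSup_eq_zero.1 hH2 hr
    have hH4 : (⨅ (t : ℕ → Set (E (m + 1))) (_ : G ⊆ ⋃ n, t n)
        (_ : ∀ n, Metric.ediam (t n) ≤ ENNReal.ofReal (δ₀ / 2)),
        ∑' n, ⨆ _ : (t n).Nonempty, Metric.ediam (t n) ^ a) < ENNReal.ofReal ε := by
      rw [hH3]; exact ENNReal.ofReal_pos.2 hε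
    obtain ⟨t, ht⟩ := iInf_lt_iff.1 hH4
    obtain ⟨htG, ht2⟩ := iInf_lt_iff.1 ht
    obtain ⟨htd, ht3⟩ := iInf_lt_iff.1 ht2
    -- diameters
    set D : ℕ → ℝ := fun n => (Metric.ediam (t n)).toReal with hD
    have hDfin : ∀ n, Metric.ediam (t n) ≠ ⊤ := fun n =>
      ne_top_of_le_ne_top ENNReal.ofReal_ne_top (htd n)
    have hD0 : ∀ n, 0 ≤ D n := fun n => ENNReal.toReal_nonneg
    have hDle : ∀ n, D n ≤ δ₀ / 2 := fun n =>
      ENNReal.toReal_le_of_le_ofReal (by linarith) (htd n)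
    set sm : ℕ → ℝ := fun n => min (δ₀ / 2) ((ε / 2 / 2 ^ n) ^ (1 / a)) with hsm
    have hsm0 : ∀ n, 0 < sm n := fun n => lt_min (by linarith) (Real.rpow_pos_of_pos (by positivity) _)
    have hsma : ∀ n, sm n ^ a ≤ ε / 2 / 2 ^ n := by
      intro n
      calc sm n ^ a ≤ ((ε / 2 / 2 ^ n) ^ (1 / a)) ^ a :=
            Real.rpow_le_rpow (hsm0 n).le (min_le_right _ _) ha.le
        _ = ε / 2 / 2 ^ n := by
            rw [← Real.rpow_mul (by positivity), one_div_mul_cancel ha.ne', Real.rpow_one]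
    set δ : ℕ → ℝ := fun n => max (D n) (sm n) with hδ
    have hδpos : ∀ n, 0 < δ n := fun n => lt_of_lt_of_le (hsm0 n) (le_max_right _ _)
    have hδlt : ∀ n, δ n < δ₀ := fun n =>
      max_lt (by linarith [hDle n]) (lt_of_le_of_lt (min_le_left _ _) (by linarith))
    have hδa : ∀ n, δ n ^ a ≤ D n ^ a + sm n ^ a := by
      intro n
      rcases le_total (D n) (sm n) with h | h
      · have : δ n = sm n := max_eq_right h
        rw [this]; linarith [Real.rpow_nonneg (hD0 n) a]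
      · have : δ n = D n := max_eq_left h
        rw [this]; linarith [Real.rpow_nonneg (hsm0 n).le a]
    choose V hVG hVd using fun n => exists_cover G hG (δ n) (hδpos n)
    classical
    set u : ℕ → E (m + 1) := fun n => if h : (t n).Nonempty then h.some else 0 with hu
    set v : (n : ℕ) → Fin (covNum G (δ n)) → E (m + 1) :=
      fun n j => if h : (V n j).Nonempty then h.some else 0 with hv
    have hu1 : ∀ n, ∀ x ∈ t n, dist x (u n) ≤ δ n := by
      intro n x hx
      have hne : (t n).Nonempty := ⟨x, hx⟩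
      have h1 : u n = hne.some := by simp only [hu]; rw [dif_pos hne]
      rw [h1]
      have h2 : edist x hne.some ≤ Metric.ediam (t n) := Metric.edist_le_ediam_of_mem hx hne.some_mem
      have h3 : dist x hne.some ≤ D n := by
        rw [dist_edist]
        exact ENNReal.toReal_mono (hDfin n) h2
      exact h3.trans (le_max_left _ _)
    have hv1 : ∀ n j, ∀ x ∈ V n j, dist x (v n j) ≤ δ n := by
      intro n j x hx
      have hne : (V n j).Nonempty := ⟨x, hx⟩
      have h1 : v n j = hne.some := by simp only [hv]; rw [dif_pos hne]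
      rw [h1]
      exact hVd n j x hx _ hne.some_mem
    set Box : (n : ℕ) → Fin (covNum G (δ n)) → Set (ℝ × (Fin m → ℝ) × (Fin m → ℝ)) :=
      fun n j => (Metric.closedBall (v n j 0 - u n 0) (2 * δ n)) ×ˢ
        ((Metric.closedBall (fun i : Fin m => u n i.succ) (δ n)) ×ˢ
          (Metric.closedBall (fun i : Fin m => v n j i.succ) (δ n))) with hBox
    have hcov : W m (fun t i => f t i.succ) ⊆ ⋃ n, ⋃ j, Box n j := by
      rintro ⟨τ, p', q'⟩ ⟨hτ, hp, hq⟩
      simp only at hτ hp hq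
      -- the two points
      set p : E (m + 1) := WithLp.toLp 2 (Fin.cons (f τ 0) p') with hpdef
      set q : E (m + 1) := WithLp.toLp 2 (Fin.cons (f τ 0 + τ) q') with hqdef
      have hp0 : p 0 = f τ 0 := rfl
      have hq0 : q 0 = f τ 0 + τ := rfl
      have hps : ∀ i : Fin m, p i.succ = p' i := fun i => rfl
      have hqs : ∀ i : Fin m, q i.succ = q' i := fun i => rfl
      have hτ0 : τ ≠ 0 := hτ.1.ne'
      have hpG : p ∈ G := by
        rw [hGdef]
        refine mem_iUnion₂.2 ⟨τ, hτ, τ⁻¹ • (p - f τ), ⟨?_, 0, Or.inl ?_⟩, ?_⟩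
        · intro i
          refine Fin.cases ?_ (fun i => ?_) i
          · simp [hp0]
          · have h1 : (τ⁻¹ • (p - f τ)) i.succ = τ⁻¹ * (p' i - f τ i.succ) := by
              simp [hps]
            rw [h1]
            have h2 := hp i
            constructor
            · exact mul_nonneg (inv_nonneg.2 hτ.1.le) (by linarith)
            · rw [inv_mul_le_iff₀ hτ.1]; linarith
        · simp [hp0]
        · simp only
          rw [smul_smul, mul_inv_cancel₀ hτ0, one_smul, sub_add_cancel]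
      have hqG : q ∈ G := by
        rw [hGdef]
        refine mem_iUnion₂.2 ⟨τ, hτ, τ⁻¹ • (q - f τ), ⟨?_, 0, Or.inr ?_⟩, ?_⟩
        · intro i
          refine Fin.cases ?_ (fun i => ?_) i
          · simp [hq0, hτ0]
          · have h1 : (τ⁻¹ • (q - f τ)) i.succ = τ⁻¹ * (q' i - f τ i.succ) := by
              simp [hqs]
            rw [h1]
            have h2 := hq i
            constructor
            · exact mul_nonneg (inv_nonneg.2 hτ.1.le) (by linarith)
            · rw [inv_mul_le_iff₀ hτ.1]; linarith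
        · simp [hq0, hτ0]
        · simp only
          rw [smul_smul, mul_inv_cancel₀ hτ0, one_smul, sub_add_cancel]
      obtain ⟨n, hn⟩ := mem_iUnion.1 (htG hpG)
      obtain ⟨j, hj⟩ := mem_iUnion.1 (hVG n hqG)
      refine mem_iUnion₂.2 ⟨n, j, ?_, ?_, ?_⟩
      · have h1 := (abs_coord_le p (u n) 0).trans (hu1 n p hn)
        have h2 := (abs_coord_le q (v n j) 0).trans (hv1 n j q hj)
        rw [hp0] at h1; rw [hq0] at h2
        rw [Metric.mem_closedBall, Real.dist_eq]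
        simp only
        have h3 : τ - (v n j 0 - u n 0) = (f τ 0 + τ - v n j 0) - (f τ 0 - u n 0) := by ring
        rw [h3]
        calc |(f τ 0 + τ - v n j 0) - (f τ 0 - u n 0)|
            ≤ |f τ 0 + τ - v n j 0| + |f τ 0 - u n 0| := abs_sub _ _
          _ ≤ 2 * δ n := by linarith
      · rw [Metric.mem_closedBall, dist_pi_le_iff (hδpos n).le]
        intro i
        have h1 := (abs_coord_le p (u n) i.succ).trans (hu1 n p hn)
        rw [hps] at h1
        rw [Real.dist_eq]; exact h1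
      · rw [Metric.mem_closedBall, dist_pi_le_iff (hδpos n).le]
        intro i
        have h1 := (abs_coord_le q (v n j) i.succ).trans (hv1 n j q hj)
        rw [hqs] at h1
        rw [Real.dist_eq]; exact h1
    have hone : ∀ n, ∑' j, volume (Box n j) ≤
        ENNReal.ofReal C * (ENNReal.ofReal (D n ^ a) + ENNReal.ofReal (sm n ^ a)) := by
      intro n
      have h1 : ∀ j, volume (Box n j) = ENNReal.ofReal (C * δ n ^ (2 * m + 1)) := fun j =>
        box_volume m _ _ _ _ (hδpos n).le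
      rw [tsum_fintype, Finset.sum_congr rfl (fun j _ => h1 j), Finset.sum_const,
        Finset.card_univ, Fintype.card_fin, nsmul_eq_mul, ← ENNReal.ofReal_natCast,
        ← ENNReal.ofReal_mul (Nat.cast_nonneg _),
        ← ENNReal.ofReal_add (Real.rpow_nonneg (hD0 n) _) (Real.rpow_nonneg (hsm0 n).le _),
        ← ENNReal.ofReal_mul hCpos.le]
      apply ENNReal.ofReal_le_ofReal
      have h2 := hN (δ n) (hδpos n) (hδlt n)
      have h3 : δ n ^ (-b) * δ n ^ (2 * m + 1) = δ n ^ a := by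
        rw [← Real.rpow_natCast, ← Real.rpow_add (hδpos n)]
        congr 1
        push_cast
        linarith
      calc (covNum G (δ n) : ℝ) * (C * δ n ^ (2 * m + 1))
          ≤ δ n ^ (-b) * (C * δ n ^ (2 * m + 1)) :=
            mul_le_mul_of_nonneg_right h2 (mul_nonneg hCpos.le (pow_nonneg (hδpos n).le _))
        _ = C * δ n ^ a := by rw [← h3]; ring
        _ ≤ C * (D n ^ a + sm n ^ a) := mul_le_mul_of_nonneg_left (hδa n) hCpos.le
    have hsumD : ∑' n, ENNReal.ofReal (D n ^ a) ≤ ENNReal.ofReal ε := by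
      refine le_trans (ENNReal.tsum_le_tsum fun n => ?_) ht3.le
      by_cases hne : (t n).Nonempty
      · rw [iSup_pos hne, hD]
        simp only
        rw [← ENNReal.ofReal_rpow_of_nonneg ENNReal.toReal_nonneg ha.le,
          ENNReal.ofReal_toReal (hDfin n)]
      · have : t n = ∅ := Set.not_nonempty_iff_eq_empty.1 hne
        have h0 : D n = 0 := by simp [hD, this]
        rw [h0, Real.zero_rpow ha.ne']
        simp
    have hsumS : ∑' n, ENNReal.ofReal (sm n ^ a) ≤ ENNReal.ofReal ε := by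
      calc ∑' n, ENNReal.ofReal (sm n ^ a) ≤ ∑' n, ENNReal.ofReal (ε / 2 / 2 ^ n) :=
            ENNReal.tsum_le_tsum fun n => ENNReal.ofReal_le_ofReal (hsma n)
        _ = ENNReal.ofReal ε := by
            rw [← ENNReal.ofReal_tsum_of_nonneg (fun n => by positivity) (summable_geometric_two' ε),
              tsum_geometric_two']
    calc volume (W m (fun t i => f t i.succ)) ≤ volume (⋃ n, ⋃ j, Box n j) := measure_mono hcov
      _ ≤ ∑' n, volume (⋃ j, Box n j) := measure_iUnion_le _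
      _ ≤ ∑' n, ∑' j, volume (Box n j) := ENNReal.tsum_le_tsum fun n => measure_iUnion_le _
      _ ≤ ∑' n, ENNReal.ofReal C * (ENNReal.ofReal (D n ^ a) + ENNReal.ofReal (sm n ^ a)) :=
          ENNReal.tsum_le_tsum hone
      _ = ENNReal.ofReal C * (∑' n, ENNReal.ofReal (D n ^ a) + ∑' n, ENNReal.ofReal (sm n ^ a)) := by
          rw [ENNReal.tsum_mul_left, ENNReal.tsum_add]
      _ ≤ ENNReal.ofReal C * (ENNReal.ofReal ε + ENNReal.ofReal ε) := by gcongr
  by_contra hne
  have hlim : Tendsto (fun ε : ℝ => ENNReal.ofReal C * (ENNReal.ofReal ε + ENNReal.ofReal ε))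
      (𝓝[>] 0) (𝓝 0) := by
    have h1 : Tendsto (fun ε : ℝ => ENNReal.ofReal (C * (ε + ε))) (𝓝[>] 0) (𝓝 0) := by
      have h2 : Tendsto (fun ε : ℝ => ENNReal.ofReal (C * (ε + ε))) (𝓝 0)
          (𝓝 (ENNReal.ofReal (C * (0 + 0)))) :=
        (ENNReal.continuous_ofReal.comp (by fun_prop : Continuous fun ε : ℝ => C * (ε + ε))).tendsto 0
      simp only [add_zero, mul_zero, ENNReal.ofReal_zero] at h2
      exact h2.mono_left nhdsWithin_le_nhds
    refine h1.congr' ?_
    filter_upwards [self_mem_nhdsWithin] with ε hε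
    have hε' : (0 : ℝ) < ε := hε
    rw [ENNReal.ofReal_mul hCpos.le, ENNReal.ofReal_add hε'.le hε'.le]
  have hle : volume (W m (fun t i => f t i.succ)) ≤ 0 := by
    refine ge_of_tendsto hlim ?_
    filter_upwards [self_mem_nhdsWithin] with ε hε
    exact key ε hε
  exact hne (le_antisymm hle bot_le)

lemma bounded_packing {n : ℕ} (f : ℝ → E n)
    (hf : ∀ t ∈ Ioo (0 : ℝ) 1, ∀ i, 0 ≤ f t i ∧ f t i ≤ 1) :
    Bornology.IsBounded (packing n f) := by
  have h1 : packing n f ⊆ {x : E n | ∀ i, x i ∈ Icc (0 : ℝ) 2} := by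
    intro x hx
    obtain ⟨t, ht, k, ⟨hk, -⟩, rfl⟩ := mem_iUnion₂.1 hx
    intro i
    have h2 := hk i
    have h3 := hf t ht i
    have h4 : (t • k + f t) i = t * k i + f t i := by simp
    simp only
    rw [h4]
    constructor
    · have := mul_nonneg ht.1.le h2.1; linarith
    · have := mul_le_mul ht.2.le h2.2 h2.1 zero_le_one; linarith
  refine Bornology.IsBounded.subset ?_ h1
  have h5 : {x : E n | ∀ i, x i ∈ Icc (0 : ℝ) 2}
      = (EuclideanSpace.equiv (Fin n) ℝ) ⁻¹' (Set.univ.pi fun _ => Icc (0 : ℝ) 2) := by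
    ext x
    simp only [mem_ofPred_eq, mem_preimage, mem_univ_pi]
    exact Iff.rfl
  rw [h5]
  have h6 : IsCompact (Set.univ.pi fun _ : Fin n => Icc (0 : ℝ) 2) :=
    isCompact_univ_pi fun _ => isCompact_Icc
  exact ((EuclideanSpace.equiv (Fin n) ℝ).toHomeomorph.isCompact_preimage.2 h6).isBounded

/-- **Main result.** For every `n ≥ 1` and every size cube packing `f : (0,1) → [0,1]ⁿ`,
the set `G = ⋃ (t K + f(t))` satisfies `2n - 1 ≤ dim_H G + upper box dim G`. -/
theorem result (n : ℕ) (hn : 1 ≤ n) (f : ℝ → E n)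
    (hf : ∀ t ∈ Ioo (0 : ℝ) 1, ∀ i, 0 ≤ f t i ∧ f t i ≤ 1) :
    ((2 * (n : ℝ) - 1 : ℝ) : EReal) ≤
      ((dimH (packing n f) : ℝ≥0∞) : EReal) + upperBoxDim (packing n f) := by
  obtain ⟨m, rfl⟩ : ∃ m, n = m + 1 := ⟨n - 1, by omega⟩
  by_contra hlt
  push Not at hlt
  set G := packing (m + 1) f with hGdef
  have hbd := bounded_packing f hf
  -- the box dimension is nonnegative
  have hub0 : (0 : EReal) ≤ upperBoxDim G := by
    unfold upperBoxDim
    refine le_limsup_of_frequently_le ?_ (by isBoundedDefault)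
    apply Eventually.frequently
    have h1 : ∀ᶠ δ : ℝ in 𝓝[>] 0, δ < 1 :=
      nhdsWithin_le_nhds (Iio_mem_nhds (by norm_num : (0 : ℝ) < 1))
    filter_upwards [h1, self_mem_nhdsWithin] with δ hδ1 hδ0
    have hδ0' : (0 : ℝ) < δ := hδ0
    have h2 : 0 ≤ Real.log (covNum G δ) := Real.log_natCast_nonneg _
    have h3 : 0 ≤ Real.log (1 / δ) := Real.log_nonneg (by rw [le_div_iff₀ hδ0']; linarith)
    exact_mod_cast div_nonneg h2 h3
  have hx0 : (0 : EReal) ≤ ((dimH G : ℝ≥0∞) : EReal) := EReal.coe_ennreal_nonneg _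
  have hxlt : ((dimH G : ℝ≥0∞) : EReal) < ((2 * ((m + 1 : ℕ) : ℝ) - 1 : ℝ) : EReal) :=
    lt_of_le_of_lt (le_add_of_nonneg_right hub0) hlt
  have hylt : upperBoxDim G < ((2 * ((m + 1 : ℕ) : ℝ) - 1 : ℝ) : EReal) :=
    lt_of_le_of_lt (le_add_of_nonneg_left hx0) hlt
  obtain ⟨x, hx⟩ : ∃ x : ℝ, ((dimH G : ℝ≥0∞) : EReal) = (x : EReal) :=
    ⟨_, (EReal.coe_toReal (ne_top_of_lt hxlt) (ne_bot_of_le_ne_bot (by simp) hx0)).symm⟩
  obtain ⟨y, hy⟩ : ∃ y : ℝ, upperBoxDim G = (y : EReal) :=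
    ⟨_, (EReal.coe_toReal (ne_top_of_lt hylt) (ne_bot_of_le_ne_bot (by simp) hub0)).symm⟩
  have hxnn : 0 ≤ x := by rw [hx] at hx0; exact_mod_cast hx0
  have hynn : 0 ≤ y := by rw [hy] at hub0; exact_mod_cast hub0
  rw [hx, hy, ← EReal.coe_add, EReal.coe_lt_coe_iff] at hlt
  push_cast at hlt
  set η : ℝ := (2 * ((m : ℝ) + 1) - 1 - (x + y)) / 2 with hη
  have hηpos : 0 < η := by rw [hη]; linarith
  have ha : 0 < x + η := by linarith
  have hab : (x + η) + (y + η) = 2 * m + 1 := by rw [hη]; ring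
  have hdim : dimH G < ((Real.toNNReal (x + η) : ℝ≥0) : ℝ≥0∞) := by
    rw [← EReal.coe_ennreal_lt_coe_ennreal_iff, hx]
    have h1 : (((Real.toNNReal (x + η) : ℝ≥0) : ℝ≥0∞) : EReal) = ((x + η : ℝ) : EReal) := by
      have h2 : (((Real.toNNReal (x + η) : ℝ≥0) : ℝ≥0∞) : EReal)
          = (((Real.toNNReal (x + η) : ℝ≥0) : ℝ) : EReal) := rfl
      rw [h2, Real.coe_toNNReal _ ha.le]
    rw [h1, EReal.coe_lt_coe_iff]
    linarith
  have hH := hausdorffMeasure_of_dimH_lt hdim
  rw [Real.coe_toNNReal _ ha.le] at hH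
  have hev : ∀ᶠ δ : ℝ in 𝓝[>] 0,
      ((Real.log (covNum G δ) / Real.log (1 / δ) : ℝ) : EReal) < ((y + η : ℝ) : EReal) := by
    refine eventually_lt_of_limsup_lt ?_ (by isBoundedDefault)
    change upperBoxDim G < _
    rw [hy, EReal.coe_lt_coe_iff]
    linarith
  obtain ⟨δ₁, hδ₁, hδ₁'⟩ := (mem_nhdsGT_iff_exists_Ioo_subset).1 hev
  have hδ₁pos : (0 : ℝ) < δ₁ := hδ₁
  refine W_not_null m (fun t i => f t i.succ) (W_null_of f (x + η) (y + η) ha hab hbd hH
    (min δ₁ 1) (lt_min hδ₁pos zero_lt_one) ?_)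
  intro δ hδ0 hδ1
  have h1 := hδ₁' ⟨hδ0, lt_of_lt_of_le hδ1 (min_le_left _ _)⟩
  have hlt1 : δ < 1 := lt_of_lt_of_le hδ1 (min_le_right _ _)
  have h2 : Real.log (covNum G δ) / Real.log (1 / δ) < y + η := by exact_mod_cast h1
  have h3 : 0 < Real.log (1 / δ) := Real.log_pos (by rw [lt_div_iff₀ hδ0]; linarith)
  rw [div_lt_iff₀ h3] at h2
  rcases Nat.eq_zero_or_pos (covNum G δ) with h0 | h0
  · rw [← hGdef, h0]
    simp only [Nat.cast_zero]
    exact Real.rpow_nonneg hδ0.le _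
  · have h4 : (0 : ℝ) < covNum G δ := by exact_mod_cast h0
    rw [← hGdef, ← Real.log_le_log_iff h4 (Real.rpow_pos_of_pos hδ0 _), Real.log_rpow hδ0]
    rw [one_div, Real.log_inv] at h2
    linarith

end Pool.Agent.Results.MP_05d054_an.DimensionSum
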